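import Mathlib
import Pool.Agent.helper87.PI.Defs

set_option autoImplicit false

/-! # Project PI, module B1: subgraphs with lower and upper degree bounds -/

namespace Pool.Agent.helper87.PI

open Finset

section graph

variable {X Y : Type} [Fintype X] [Fintype Y] [DecidableEq X] [DecidableEq Y]

lemma B1_sumY (E : Finset (X × Y)) (T : Finset Y) :
    ∑ y ∈ T, dY E y = (E.filter (fun e => e.2 ∈ T)).card := by
  rw [Finset.card_eq_sum_card_fiberwise (f := fun e : X × Y => e.2) (t := T)]
  · apply Finset.sum_congr rfl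
    intro y hy
    unfold dY
    rw [Finset.filter_filter]
    congr 1
    apply Finset.filter_congr
    intro e _
    constructor
    · intro h; exact ⟨by rw [h]; exact hy, h⟩
    · intro h; exact h.2
  · intro e he
    exact (Finset.mem_filter.1 he).2

lemma B1_sumX (E : Finset (X × Y)) (U : Finset X) :
    ∑ x ∈ U, dX E x = (E.filter (fun e => e.1 ∈ U)).card := by
  rw [Finset.card_eq_sum_card_fiberwise (f := fun e : X × Y => e.1) (t := U)]
  · apply Finset.sum_congr rfl
    intro x hx
    unfold dX
    rw [Finset.filter_filter]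
    congr 1
    apply Finset.filter_congr
    intro e _
    constructor
    · intro h; exact ⟨by rw [h]; exact hx, h⟩
    · intro h; exact h.2
  · intro e he
    exact (Finset.mem_filter.1 he).2

/-- the elements of `Fin n` below `m` -/
def B1_low (n m : ℕ) : Finset (Fin n) := univ.filter (fun i : Fin n => i.val < m)

lemma B1_mem_low (n m : ℕ) (i : Fin n) : i ∈ B1_low n m ↔ i.val < m := by
  simp [B1_low]

lemma B1_fin (n m : ℕ) : (B1_low n m).card ≤ m := by
  calc (B1_low n m).card
      = ((B1_low n m).image (fun i => i.val)).card :=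
        (Finset.card_image_of_injective _ Fin.val_injective).symm
    _ ≤ (Finset.range m).card := by
        apply Finset.card_le_card
        intro j hj
        obtain ⟨i, hi, rfl⟩ := Finset.mem_image.1 hj
        exact Finset.mem_range.2 ((B1_mem_low n m i).1 hi)
    _ = m := Finset.card_range m

/-- pi:B1 -/
theorem factor (E : Finset (X × Y)) (lx ux : X → ℕ) (ly uy : Y → ℕ)
    (hxle : ∀ x, lx x ≤ ux x) (hyle : ∀ y, ly y ≤ uy y)
    (h1 : ∀ (U : Finset X) (T : Finset Y),
      ∑ x ∈ U, lx x ≤ ∑ y ∈ T, uy y + (E.filter (fun e => e.1 ∈ U ∧ e.2 ∉ T)).card)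
    (h2 : ∀ (U : Finset X) (T : Finset Y),
      ∑ y ∈ T, ly y ≤ ∑ x ∈ U, ux x + (E.filter (fun e => e.1 ∉ U ∧ e.2 ∈ T)).card) :
    ∃ H ⊆ E, (∀ x, lx x ≤ dX H x ∧ dX H x ≤ ux x) ∧
      ∀ y, ly y ≤ dY H y ∧ dY H y ≤ uy y := by
  classical
  have hly : ∀ y, ly y ≤ dY E y := by
    intro y
    have := h2 ∅ {y}
    simpa [dY] using this
  -- Hall without dummies, in numbers
  have hF1 : ∀ (F : Finset (X × Y)), F ⊆ E →
      F.card ≤ ∑ x ∈ F.image Prod.fst, ux x + ∑ y ∈ F.image Prod.snd, (dY E y - ly y) := by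
    intro F hF
    set U := F.image Prod.fst
    set T := F.image Prod.snd
    have a1 := h2 U T
    have a2 : F.card + (E.filter (fun e => e.1 ∉ U ∧ e.2 ∈ T)).card ≤ ∑ y ∈ T, dY E y := by
      rw [B1_sumY, ← Finset.card_union_of_disjoint]
      · apply Finset.card_le_card
        intro e he
        rcases Finset.mem_union.1 he with h | h
        · exact Finset.mem_filter.2 ⟨hF h, Finset.mem_image_of_mem _ h⟩
        · exact Finset.mem_filter.2 ⟨(Finset.mem_filter.1 h).1, (Finset.mem_filter.1 h).2.2⟩
      · rw [Finset.disjoint_left]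
        intro e he he'
        exact (Finset.mem_filter.1 he').2.1 (Finset.mem_image_of_mem _ he)
    have a3 : ∑ y ∈ T, (dY E y - ly y) + ∑ y ∈ T, ly y = ∑ y ∈ T, dY E y := by
      rw [← Finset.sum_add_distrib]
      exact Finset.sum_congr rfl fun y _ => Nat.sub_add_cancel (hly y)
    omega
  -- Hall with dummies, in numbers
  have hF2 : ∀ (F : Finset (X × Y)), F ⊆ E →
      F.card + (∑ x ∈ (F.image Prod.fst)ᶜ, lx x + ∑ y ∈ (F.image Prod.snd)ᶜ, (dY E y - uy y)) ≤
        E.card := by
    intro F hF
    set U' := (F.image Prod.fst)ᶜ with hU'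
    set T' := (F.image Prod.snd)ᶜ with hT'
    set T'' := T'.filter (fun y => uy y ≤ dY E y) with hT''
    have a1 := h1 U' T''
    have a2 : ∑ y ∈ T', (dY E y - uy y) = ∑ y ∈ T'', (dY E y - uy y) := by
      rw [hT'', Finset.sum_filter]
      apply Finset.sum_congr rfl
      intro y _
      split_ifs with h
      · rfl
      · omega
    have a3 : ∑ y ∈ T'', (dY E y - uy y) + ∑ y ∈ T'', uy y = ∑ y ∈ T'', dY E y := by
      rw [← Finset.sum_add_distrib]
      exact Finset.sum_congr rfl fun y hy => Nat.sub_add_cancel (Finset.mem_filter.1 hy).2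
    have a4 : F.card + ((E.filter (fun e => e.1 ∈ U' ∧ e.2 ∉ T'')).card +
        (E.filter (fun e => e.2 ∈ T'')).card) ≤ E.card := by
      rw [← Finset.card_union_of_disjoint, ← Finset.card_union_of_disjoint]
      · apply Finset.card_le_card
        intro e he
        rcases Finset.mem_union.1 he with h | h
        · exact hF h
        · rcases Finset.mem_union.1 h with h | h
          · exact (Finset.mem_filter.1 h).1
          · exact (Finset.mem_filter.1 h).1
      · rw [Finset.disjoint_left]
        intro e he he'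
        rcases Finset.mem_union.1 he' with h | h
        · have := (Finset.mem_filter.1 h).2.1
          rw [hU', Finset.mem_compl] at this
          exact this (Finset.mem_image_of_mem _ he)
        · have := (Finset.mem_filter.1 (Finset.mem_filter.1 h).2).1
          rw [hT', Finset.mem_compl] at this
          exact this (Finset.mem_image_of_mem _ he)
      · rw [Finset.disjoint_left]
        intro e he he'
        exact (Finset.mem_filter.1 he).2.2 (Finset.mem_filter.1 he').2
    rw [← B1_sumY] at a4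
    omega
  -- the number of dummies
  obtain ⟨k, hk⟩ : ∃ k, E.card + k = ∑ x, ux x + ∑ y, (dY E y - ly y) := by
    have a1 := hF1 E (Finset.Subset.refl E)
    have a2 : ∑ x ∈ E.image Prod.fst, ux x ≤ ∑ x, ux x :=
      Finset.sum_le_sum_of_subset (Finset.subset_univ _)
    have a3 : ∑ y ∈ E.image Prod.snd, (dY E y - ly y) ≤ ∑ y, (dY E y - ly y) :=
      Finset.sum_le_sum_of_subset (Finset.subset_univ _)
    exact ⟨∑ x, ux x + ∑ y, (dY E y - ly y) - E.card, by omega⟩
  let β := (Σ x : X, Fin (ux x)) ⊕ (Σ y : Y, Fin (dY E y - ly y))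
  let α := {e // e ∈ E} ⊕ Fin k
  have hαβ : Fintype.card α = Fintype.card β := by
    show Fintype.card ({e // e ∈ E} ⊕ Fin k) =
      Fintype.card ((Σ x : X, Fin (ux x)) ⊕ (Σ y : Y, Fin (dY E y - ly y)))
    rw [Fintype.card_sum, Fintype.card_sum, Fintype.card_sigma, Fintype.card_sigma,
      Fintype.card_coe, Fintype.card_fin]
    simp only [Fintype.card_fin]
    exact hk
  let t : α → Finset β := fun a => match a with
    | Sum.inl e => univ.filter (fun b : β => match b with
        | Sum.inl p => p.1 = e.1.1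
        | Sum.inr p => p.1 = e.1.2)
    | Sum.inr _ => univ.filter (fun b : β => match b with
        | Sum.inl p => lx p.1 ≤ p.2
        | Sum.inr p => dY E p.1 - uy p.1 ≤ p.2)
  have ht1 : ∀ e p, (Sum.inl p : β) ∈ t (Sum.inl e) ↔ p.1 = e.1.1 := by
    intro e p; simp [t]
  have ht2 : ∀ e p, (Sum.inr p : β) ∈ t (Sum.inl e) ↔ p.1 = e.1.2 := by
    intro e p; simp [t]
  have ht3 : ∀ i p, (Sum.inl p : β) ∈ t (Sum.inr i) ↔ lx p.1 ≤ p.2 := by
    intro e p; simp [t]
  have ht4 : ∀ i p, (Sum.inr p : β) ∈ t (Sum.inr i) ↔ dY E p.1 - uy p.1 ≤ p.2 := by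
    intro e p; simp [t]
  have hHall : ∀ s : Finset α, s.card ≤ (s.biUnion t).card := by
    intro s
    -- the edges in `s`
    set F0 : Finset {e // e ∈ E} := univ.filter (fun e => (Sum.inl e : α) ∈ s) with hF0
    set D0 : Finset (Fin k) := univ.filter (fun i => (Sum.inr i : α) ∈ s) with hD0
    have hs : s = F0.disjSum D0 := by
      ext a
      rcases a with e | i
      · rw [Finset.inl_mem_disjSum, hF0, Finset.mem_filter]; simp
      · rw [Finset.inr_mem_disjSum, hD0, Finset.mem_filter]; simp
    have hsc : s.card = F0.card + D0.card := by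
      conv_lhs => rw [hs]
      exact Finset.card_disjSum _ _
    set F : Finset (X × Y) := F0.map (Function.Embedding.subtype _) with hF
    have hFc : F.card = F0.card := Finset.card_map _
    have hFE : F ⊆ E := by
      intro e he
      obtain ⟨e', _, rfl⟩ := Finset.mem_map.1 he
      exact e'.2
    have hFs : ∀ e ∈ F, ∃ h : e ∈ E, (Sum.inl ⟨e, h⟩ : α) ∈ s := by
      intro e he
      obtain ⟨e', he', rfl⟩ := Finset.mem_map.1 he
      exact ⟨e'.2, (Finset.mem_filter.1 he').2⟩
    rcases Finset.eq_empty_or_nonempty D0 with hD | ⟨i0, hi0⟩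
    · rw [hsc, hD, Finset.card_empty, add_zero, ← hFc]
      refine (hF1 F hFE).trans ?_
      have hc : (((F.image Prod.fst).sigma (fun x => (univ : Finset (Fin (ux x))))).disjSum
          ((F.image Prod.snd).sigma (fun y => (univ : Finset (Fin (dY E y - ly y)))))).card =
          ∑ x ∈ F.image Prod.fst, ux x + ∑ y ∈ F.image Prod.snd, (dY E y - ly y) := by
        rw [Finset.card_disjSum, Finset.card_sigma, Finset.card_sigma]
        simp only [Finset.card_univ, Fintype.card_fin]
      rw [← hc]
      apply Finset.card_le_card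
      intro b hb
      rw [Finset.mem_biUnion]
      rcases b with p | p
      · rw [Finset.inl_mem_disjSum, Finset.mem_sigma] at hb
        obtain ⟨e, he, hep⟩ := Finset.mem_image.1 hb.1
        obtain ⟨h, hes⟩ := hFs e he
        exact ⟨_, hes, (ht1 _ _).2 hep.symm⟩
      · rw [Finset.inr_mem_disjSum, Finset.mem_sigma] at hb
        obtain ⟨e, he, hep⟩ := Finset.mem_image.1 hb.1
        obtain ⟨h, hes⟩ := hFs e he
        exact ⟨_, hes, (ht2 _ _).2 hep.symm⟩
    · have hi0s : (Sum.inr i0 : α) ∈ s := (Finset.mem_filter.1 hi0).2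
      have hD0k : D0.card ≤ k := by
        have := Finset.card_le_univ D0
        rwa [Fintype.card_fin] at this
      set M : Finset β := (((F.image Prod.fst)ᶜ).sigma (fun x => B1_low (ux x) (lx x))).disjSum
          (((F.image Prod.snd)ᶜ).sigma (fun y => B1_low (dY E y - ly y) (dY E y - uy y))) with hM
      have hMc : M.card ≤ ∑ x ∈ (F.image Prod.fst)ᶜ, lx x +
          ∑ y ∈ (F.image Prod.snd)ᶜ, (dY E y - uy y) := by
        rw [hM, Finset.card_disjSum, Finset.card_sigma, Finset.card_sigma]
        exact Nat.add_le_add (Finset.sum_le_sum fun x _ => B1_fin _ _)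
          (Finset.sum_le_sum fun y _ => B1_fin _ _)
      have hsub : (s.biUnion t)ᶜ ⊆ M := by
        intro b hb
        rw [Finset.mem_compl, Finset.mem_biUnion] at hb
        push Not at hb
        rw [hM]
        rcases b with p | p
        · rw [Finset.inl_mem_disjSum, Finset.mem_sigma, Finset.mem_compl, B1_mem_low]
          refine ⟨?_, ?_⟩
          · intro h
            obtain ⟨e, he, hep⟩ := Finset.mem_image.1 h
            obtain ⟨h', hes⟩ := hFs e he
            exact hb _ hes ((ht1 _ _).2 hep.symm)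
          · exact Nat.lt_of_not_le fun h => hb _ hi0s ((ht3 i0 p).2 h)
        · rw [Finset.inr_mem_disjSum, Finset.mem_sigma, Finset.mem_compl, B1_mem_low]
          refine ⟨?_, ?_⟩
          · intro h
            obtain ⟨e, he, hep⟩ := Finset.mem_image.1 h
            obtain ⟨h', hes⟩ := hFs e he
            exact hb _ hes ((ht2 _ _).2 hep.symm)
          · exact Nat.lt_of_not_le fun h => hb _ hi0s ((ht4 i0 p).2 h)
      have h3 := Finset.card_le_card hsub
      have h4 := Finset.card_add_card_compl (s.biUnion t)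
      have h5 := hF2 F hFE
      have h6 : Fintype.card α = E.card + k := by
        show Fintype.card ({e // e ∈ E} ⊕ Fin k) = _
        rw [Fintype.card_sum, Fintype.card_coe, Fintype.card_fin]
      omega
  obtain ⟨f, hf, hft⟩ := (Finset.all_card_le_biUnion_card_iff_exists_injective t).1 hHall
  have hbij : Function.Bijective f := (Fintype.bijective_iff_injective_and_card f).2 ⟨hf, hαβ⟩
  -- the chosen edges
  set H0 : Finset {e // e ∈ E} := univ.filter (fun e => (f (Sum.inl e)).isLeft = true) with hH0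
  set H : Finset (X × Y) := H0.map (Function.Embedding.subtype _) with hH
  have hmemH : ∀ e (he : e ∈ E), e ∈ H ↔ ∃ p, f (Sum.inl ⟨e, he⟩) = Sum.inl p := by
    intro e he
    rw [hH, Finset.mem_map]
    constructor
    · rintro ⟨e', he', rfl⟩
      have := (Finset.mem_filter.1 he').2
      exact Sum.isLeft_iff.1 this
    · rintro ⟨p, hp⟩
      refine ⟨⟨e, he⟩, ?_, rfl⟩
      rw [hH0, Finset.mem_filter]
      refine ⟨Finset.mem_univ _, ?_⟩
      rw [hp]; rfl
  have hHE : H ⊆ E := by
    intro e he
    obtain ⟨e', _, rfl⟩ := Finset.mem_map.1 he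
    exact e'.2
  have hnotH : ∀ e (he : e ∈ E), e ∉ H ↔ ∃ p, f (Sum.inl ⟨e, he⟩) = Sum.inr p := by
    intro e he
    rw [hmemH e he]
    rcases hfe : f (Sum.inl ⟨e, he⟩) with p | p
    · simp
    · simp
  -- degrees in `H` at the left vertices
  have hX1 : ∀ x, dX H x ≤ ux x := by
    intro x
    unfold dX
    -- injection into `Fin (ux x)`
    have hg : ∀ e ∈ H.filter (fun e => e.1 = x), ∃ i : Fin (ux x), ∃ he : e ∈ E,
        f (Sum.inl ⟨e, he⟩) = Sum.inl ⟨x, i⟩ := by
      intro e he
      obtain ⟨heH, hex⟩ := Finset.mem_filter.1 he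
      have heE := hHE heH
      obtain ⟨p, hp⟩ := (hmemH e heE).1 heH
      have h3 := hft (Sum.inl ⟨e, heE⟩)
      rw [hp, ht1] at h3
      obtain ⟨p1, p2⟩ := p
      have h4 : p1 = x := by rw [← hex]; exact h3
      subst h4
      exact ⟨p2, heE, hp⟩
    choose g hg using hg
    have hgi : Function.Injective (fun e : {e // e ∈ H.filter (fun e => e.1 = x)} =>
        g e.1 e.2) := by
      intro e e' hee
      obtain ⟨h3, h4⟩ := hg e.1 e.2
      obtain ⟨h5, h6⟩ := hg e'.1 e'.2
      have hee' : g e.1 e.2 = g e'.1 e'.2 := hee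
      rw [hee', ← h6] at h4
      have h7 := Sum.inl_injective (hf h4)
      have h8 : e.1 = e'.1 := Subtype.mk.inj h7
      exact Subtype.ext h8
    have := Fintype.card_le_of_injective _ hgi
    rwa [Fintype.card_coe, Fintype.card_fin] at this
  have hX2 : ∀ x, lx x ≤ dX H x := by
    intro x
    unfold dX
    have hg : ∀ i : Fin (lx x), ∃ e ∈ H.filter (fun e => e.1 = x), ∃ he : e ∈ E,
        f (Sum.inl ⟨e, he⟩) = Sum.inl ⟨x, ⟨i, lt_of_lt_of_le i.2 (hxle x)⟩⟩ := by
      intro i
      obtain ⟨a, ha⟩ := hbij.2 (Sum.inl ⟨x, ⟨i, lt_of_lt_of_le i.2 (hxle x)⟩⟩ : β)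
      have h3 := hft a
      rcases a with e | j
      · rw [ha, ht1] at h3
        refine ⟨e.1, ?_, e.2, ha⟩
        rw [Finset.mem_filter]
        exact ⟨(hmemH e.1 e.2).2 ⟨_, ha⟩, h3.symm⟩
      · rw [ha] at h3
        exfalso
        have : lx x ≤ (i : ℕ) := (ht3 j _).1 h3
        have := i.2
        omega
    choose g hg1 hg2 hg3 using hg
    have hgi : Function.Injective g := by
      intro i j hij
      have h3 := hg3 i
      have h4 := hg3 j
      have h5 : (⟨g i, hg2 i⟩ : {e // e ∈ E}) = ⟨g j, hg2 j⟩ := Subtype.ext hij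
      rw [h5, h4] at h3
      have h6 := Sum.inl_injective h3
      rw [Sigma.mk.injEq] at h6
      have h7 := eq_of_heq h6.2
      exact Fin.ext (Fin.mk.inj_iff.1 h7).symm
    have := Finset.card_le_card_of_injOn (s := (univ : Finset (Fin (lx x))))
      (t := H.filter (fun e => e.1 = x)) g (fun i _ => hg1 i) (hgi.injOn)
    rwa [Finset.card_univ, Fintype.card_fin] at this
  -- at the right vertices: the edges not in `H`
  have hsplit : ∀ y, dY H y + ((E \ H).filter (fun e => e.2 = y)).card = dY E y := by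
    intro y
    unfold dY
    rw [← Finset.card_union_of_disjoint]
    · congr 1
      ext e
      simp only [Finset.mem_union, Finset.mem_filter, Finset.mem_sdiff]
      constructor
      · rintro (⟨h, h'⟩ | ⟨⟨h, _⟩, h'⟩)
        · exact ⟨hHE h, h'⟩
        · exact ⟨h, h'⟩
      · rintro ⟨h, h'⟩
        by_cases hh : e ∈ H
        · exact Or.inl ⟨hh, h'⟩
        · exact Or.inr ⟨⟨h, hh⟩, h'⟩
    · rw [Finset.disjoint_left]
      intro e he he'
      exact (Finset.mem_sdiff.1 (Finset.mem_filter.1 he').1).2 (Finset.mem_filter.1 he).1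
  have hY1 : ∀ y, ((E \ H).filter (fun e => e.2 = y)).card ≤ dY E y - ly y := by
    intro y
    have hg : ∀ e ∈ (E \ H).filter (fun e => e.2 = y), ∃ i : Fin (dY E y - ly y), ∃ he : e ∈ E,
        f (Sum.inl ⟨e, he⟩) = Sum.inr ⟨y, i⟩ := by
      intro e he
      obtain ⟨heH, hex⟩ := Finset.mem_filter.1 he
      obtain ⟨heE, heH⟩ := Finset.mem_sdiff.1 heH
      obtain ⟨p, hp⟩ := (hnotH e heE).1 heH
      have h3 := hft (Sum.inl ⟨e, heE⟩)
      rw [hp, ht2] at h3
      obtain ⟨p1, p2⟩ := p
      have h4 : p1 = y := by rw [← hex]; exact h3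
      subst h4
      exact ⟨p2, heE, hp⟩
    choose g hg using hg
    have hgi : Function.Injective (fun e : {e // e ∈ (E \ H).filter (fun e => e.2 = y)} =>
        g e.1 e.2) := by
      intro e e' hee
      obtain ⟨h3, h4⟩ := hg e.1 e.2
      obtain ⟨h5, h6⟩ := hg e'.1 e'.2
      have hee' : g e.1 e.2 = g e'.1 e'.2 := hee
      rw [hee', ← h6] at h4
      have h7 := Sum.inl_injective (hf h4)
      have h8 : e.1 = e'.1 := Subtype.mk.inj h7
      exact Subtype.ext h8
    have := Fintype.card_le_of_injective _ hgi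
    rwa [Fintype.card_coe, Fintype.card_fin] at this
  have hY2 : ∀ y, dY E y - uy y ≤ ((E \ H).filter (fun e => e.2 = y)).card := by
    intro y
    have hle : dY E y - uy y ≤ dY E y - ly y := Nat.sub_le_sub_left (hyle y) _
    have hg : ∀ i : Fin (dY E y - uy y), ∃ e ∈ (E \ H).filter (fun e => e.2 = y),
        ∃ he : e ∈ E, f (Sum.inl ⟨e, he⟩) = Sum.inr ⟨y, ⟨i, lt_of_lt_of_le i.2 hle⟩⟩ := by
      intro i
      obtain ⟨a, ha⟩ := hbij.2 (Sum.inr ⟨y, ⟨i, lt_of_lt_of_le i.2 hle⟩⟩ : β)
      have h3 := hft a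
      rcases a with e | j
      · rw [ha, ht2] at h3
        refine ⟨e.1, ?_, e.2, ha⟩
        rw [Finset.mem_filter, Finset.mem_sdiff]
        exact ⟨⟨e.2, (hnotH e.1 e.2).2 ⟨_, ha⟩⟩, h3.symm⟩
      · rw [ha] at h3
        exfalso
        have : dY E y - uy y ≤ (i : ℕ) := (ht4 j _).1 h3
        have := i.2
        omega
    choose g hg1 hg2 hg3 using hg
    have hgi : Function.Injective g := by
      intro i j hij
      have h3 := hg3 i
      have h4 := hg3 j
      have h5 : (⟨g i, hg2 i⟩ : {e // e ∈ E}) = ⟨g j, hg2 j⟩ := Subtype.ext hij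
      rw [h5, h4] at h3
      have h6 := Sum.inr_injective h3
      rw [Sigma.mk.injEq] at h6
      have h7 := eq_of_heq h6.2
      exact Fin.ext (Fin.mk.inj_iff.1 h7).symm
    have := Finset.card_le_card_of_injOn (s := (univ : Finset (Fin (dY E y - uy y))))
      (t := (E \ H).filter (fun e => e.2 = y)) g (fun i _ => hg1 i) (hgi.injOn)
    rwa [Finset.card_univ, Fintype.card_fin] at this
  refine ⟨H, hHE, fun x => ⟨hX2 x, hX1 x⟩, fun y => ?_⟩
  have a1 := hsplit y
  have a2 := hY1 y
  have a3 := hY2 y
  have a4 := hly y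
  omega

end graph

end Pool.Agent.helper87.PI
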