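import Mathlib
import Pool.Agent.helper87.PI.Defs
import Pool.Agent.helper15.PI.B1

set_option autoImplicit false

/-! # Project PI, module B2: edge colourings of bipartite graphs (Koenig) -/

namespace Pool.Agent.helper87.PI

open Finset

section graph

variable {X Y : Type} [Fintype X] [Fintype Y] [DecidableEq X] [DecidableEq Y]

lemma B2_sdiffX (H M : Finset (X × Y)) (hM : M ⊆ H) (x : X) :
    dX M x + dX (H \ M) x = dX H x := by
  unfold dX
  rw [← Finset.card_union_of_disjoint]
  · congr 1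
    ext e
    simp only [Finset.mem_union, Finset.mem_filter, Finset.mem_sdiff]
    constructor
    · rintro (⟨h, h'⟩ | ⟨⟨h, _⟩, h'⟩)
      · exact ⟨hM h, h'⟩
      · exact ⟨h, h'⟩
    · rintro ⟨h, h'⟩
      by_cases hh : e ∈ M
      · exact Or.inl ⟨hh, h'⟩
      · exact Or.inr ⟨⟨h, hh⟩, h'⟩
  · rw [Finset.disjoint_left]
    intro e he he'
    exact (Finset.mem_sdiff.1 (Finset.mem_filter.1 he').1).2 (Finset.mem_filter.1 he).1

lemma B2_sdiffY (H M : Finset (X × Y)) (hM : M ⊆ H) (y : Y) :
    dY M y + dY (H \ M) y = dY H y := by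
  unfold dY
  rw [← Finset.card_union_of_disjoint]
  · congr 1
    ext e
    simp only [Finset.mem_union, Finset.mem_filter, Finset.mem_sdiff]
    constructor
    · rintro (⟨h, h'⟩ | ⟨⟨h, _⟩, h'⟩)
      · exact ⟨hM h, h'⟩
      · exact ⟨h, h'⟩
    · rintro ⟨h, h'⟩
      by_cases hh : e ∈ M
      · exact Or.inl ⟨hh, h'⟩
      · exact Or.inr ⟨⟨h, hh⟩, h'⟩
  · rw [Finset.disjoint_left]
    intro e he he'
    exact (Finset.mem_sdiff.1 (Finset.mem_filter.1 he').1).2 (Finset.mem_filter.1 he).1

/-- counting the vertices of full degree, left side -/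
lemma B2_countX (q : ℕ) (hq : 0 < q) (H : Finset (X × Y)) (hy : ∀ y, dY H y ≤ q)
    (hx : ∀ x, dX H x ≤ q) (U : Finset X) (T : Finset Y) :
    ∑ x ∈ U, (if dX H x = q then 1 else 0) ≤
      ∑ y ∈ T, 1 + (H.filter (fun e => e.1 ∈ U ∧ e.2 ∉ T)).card := by
  have h1 : q * ∑ x ∈ U, (if dX H x = q then 1 else 0) ≤ ∑ x ∈ U, dX H x := by
    rw [Finset.mul_sum]
    apply Finset.sum_le_sum
    intro x _
    split_ifs with h
    · rw [h]; omega
    · omega
  have h2 : ∑ x ∈ U, dX H x ≤ ∑ y ∈ T, dY H y +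
      (H.filter (fun e => e.1 ∈ U ∧ e.2 ∉ T)).card := by
    rw [B1_sumX, B1_sumY]
    refine le_trans (Finset.card_le_card ?_) (Finset.card_union_le _ _)
    intro e he
    obtain ⟨heH, heU⟩ := Finset.mem_filter.1 he
    by_cases h : e.2 ∈ T
    · exact Finset.mem_union_left _ (Finset.mem_filter.2 ⟨heH, h⟩)
    · exact Finset.mem_union_right _ (Finset.mem_filter.2 ⟨heH, heU, h⟩)
  have h3 : ∑ y ∈ T, dY H y ≤ q * ∑ y ∈ T, 1 := by
    rw [Finset.mul_sum]
    exact Finset.sum_le_sum fun y _ => by rw [mul_one]; exact hy y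
  have h4 : (H.filter (fun e => e.1 ∈ U ∧ e.2 ∉ T)).card ≤
      q * (H.filter (fun e => e.1 ∈ U ∧ e.2 ∉ T)).card := Nat.le_mul_of_pos_left _ hq
  refine Nat.le_of_mul_le_mul_left ?_ hq
  rw [mul_add]
  omega

lemma B2_countY (q : ℕ) (hq : 0 < q) (H : Finset (X × Y)) (hy : ∀ y, dY H y ≤ q)
    (hx : ∀ x, dX H x ≤ q) (U : Finset X) (T : Finset Y) :
    ∑ y ∈ T, (if dY H y = q then 1 else 0) ≤
      ∑ x ∈ U, 1 + (H.filter (fun e => e.1 ∉ U ∧ e.2 ∈ T)).card := by
  have h1 : q * ∑ y ∈ T, (if dY H y = q then 1 else 0) ≤ ∑ y ∈ T, dY H y := by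
    rw [Finset.mul_sum]
    apply Finset.sum_le_sum
    intro x _
    split_ifs with h
    · rw [h]; omega
    · omega
  have h2 : ∑ y ∈ T, dY H y ≤ ∑ x ∈ U, dX H x +
      (H.filter (fun e => e.1 ∉ U ∧ e.2 ∈ T)).card := by
    rw [B1_sumX, B1_sumY]
    refine le_trans (Finset.card_le_card ?_) (Finset.card_union_le _ _)
    intro e he
    obtain ⟨heH, heU⟩ := Finset.mem_filter.1 he
    by_cases h : e.1 ∈ U
    · exact Finset.mem_union_left _ (Finset.mem_filter.2 ⟨heH, h⟩)
    · exact Finset.mem_union_right _ (Finset.mem_filter.2 ⟨heH, h, heU⟩)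
  have h3 : ∑ x ∈ U, dX H x ≤ q * ∑ x ∈ U, 1 := by
    rw [Finset.mul_sum]
    exact Finset.sum_le_sum fun x _ => by rw [mul_one]; exact hx x
  have h4 : (H.filter (fun e => e.1 ∉ U ∧ e.2 ∈ T)).card ≤
      q * (H.filter (fun e => e.1 ∉ U ∧ e.2 ∈ T)).card := Nat.le_mul_of_pos_left _ hq
  refine Nat.le_of_mul_le_mul_left ?_ hq
  rw [mul_add]
  omega

/-- pi:B2 -/
theorem konig (q : ℕ) (H : Finset (X × Y)) (hx : ∀ x, dX H x ≤ q) (hy : ∀ y, dY H y ≤ q) :
    ∃ c : X × Y → ℕ, Proper H c ∧ ∀ e ∈ H, c e < q := by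
  classical
  induction q generalizing H with
  | zero =>
    have hH : H = ∅ := by
      rw [Finset.eq_empty_iff_forall_notMem]
      intro e he
      have h1 : 0 < dX H e.1 := by
        unfold dX
        exact Finset.card_pos.2 ⟨e, Finset.mem_filter.2 ⟨he, rfl⟩⟩
      have := hx e.1
      omega
    subst hH
    exact ⟨fun _ => 0, fun e he => absurd he (Finset.notMem_empty e),
      fun e he => absurd he (Finset.notMem_empty e)⟩
  | succ q ih =>
    obtain ⟨M, hMH, hMx, hMy⟩ := factor H (fun x => if dX H x = q + 1 then 1 else 0) (fun _ => 1)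
      (fun y => if dY H y = q + 1 then 1 else 0) (fun _ => 1)
      (by intro x; show (if dX H x = q + 1 then 1 else 0) ≤ 1; split_ifs <;> omega)
      (by intro x; show (if dY H x = q + 1 then 1 else 0) ≤ 1; split_ifs <;> omega)
      (fun U T => B2_countX (q + 1) (Nat.succ_pos q) H hy hx U T)
      (fun U T => B2_countY (q + 1) (Nat.succ_pos q) H hy hx U T)
    obtain ⟨c, hc1, hc2⟩ := ih (H \ M)
      (by
        intro x
        have h1 := B2_sdiffX H M hMH x
        have h2 := (hMx x).1
        have h3 := hx x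
        by_cases h : dX H x = q + 1
        · simp only [h, if_true] at h2
          omega
        · omega)
      (by
        intro y
        have h1 := B2_sdiffY H M hMH y
        have h2 := (hMy y).1
        have h3 := hy y
        by_cases h : dY H y = q + 1
        · simp only [h, if_true] at h2
          omega
        · omega)
    refine ⟨fun e => if e ∈ M then q else c e, ?_, ?_⟩
    · intro e he f hf hne hor
      show (if e ∈ M then q else c e) ≠ (if f ∈ M then q else c f)
      by_cases heM : e ∈ M <;> by_cases hfM : f ∈ M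
      · exfalso
        rcases hor with h | h
        · have h1 := (hMx e.1).2
          unfold dX at h1
          have h2 := Finset.card_le_one.1 h1 e (Finset.mem_filter.2 ⟨heM, rfl⟩) f
            (Finset.mem_filter.2 ⟨hfM, h.symm⟩)
          exact hne h2
        · have h1 := (hMy e.2).2
          unfold dY at h1
          have h2 := Finset.card_le_one.1 h1 e (Finset.mem_filter.2 ⟨heM, rfl⟩) f
            (Finset.mem_filter.2 ⟨hfM, h.symm⟩)
          exact hne h2
      · rw [if_pos heM, if_neg hfM]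
        have := hc2 f (Finset.mem_sdiff.2 ⟨hf, hfM⟩)
        omega
      · rw [if_neg heM, if_pos hfM]
        have := hc2 e (Finset.mem_sdiff.2 ⟨he, heM⟩)
        omega
      · rw [if_neg heM, if_neg hfM]
        exact hc1 e (Finset.mem_sdiff.2 ⟨he, heM⟩) f (Finset.mem_sdiff.2 ⟨hf, hfM⟩) hne hor
    · intro e he
      show (if e ∈ M then q else c e) < q + 1
      split_ifs with h
      · omega
      · have := hc2 e (Finset.mem_sdiff.2 ⟨he, h⟩)
        omega

end graph

end Pool.Agent.helper87.PI
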